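import Mathlib

set_option autoImplicit false

namespace Pool.Agent.Results.MP_90787a_nt.ImagQuadraticPotGood

/-- `x` is preperiodic for the polynomial `f`: its forward orbit repeats. -/
def IsPreper {R : Type} [CommRing R] (f : Polynomial R) (x : R) : Prop :=
  ∃ m n : ℕ, m < n ∧ (fun y => f.eval y)^[m] x = (fun y => f.eval y)^[n] x

/-- everywhere potentially good reduction: after an affine change of coordinate over `ℂ`,
`f` becomes a polynomial whose coefficients are algebraic integers and whose leading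
coefficient is a unit of the ring of algebraic integers. -/
def PotGood {K : Subfield ℂ} (f : Polynomial K) : Prop :=
  ∃ (α β : ℂ) (g : Polynomial (integralClosure ℤ ℂ)), α ≠ 0 ∧ IsUnit g.leadingCoeff ∧
    (f.map K.subtype).comp (Polynomial.C α * Polynomial.X + Polynomial.C β) =
      Polynomial.C α * g.map (algebraMap (integralClosure ℤ ℂ) ℂ) + Polynomial.C β


/-- at most 36 points with mutual distances at least 1 in a disc of radius 2 -/
lemma grid {ι : Type} [DecidableEq ι] (T : Finset ι) (P : ι → ℂ) (c : ℂ)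
    (hc : ∀ z ∈ T, ‖P z - c‖ ≤ 2)
    (hs : ∀ z ∈ T, ∀ w ∈ T, z ≠ w → 1 ≤ ‖P z - P w‖) : T.card ≤ 36 := by
  classical
  have h1 : T.card ≤ ((Finset.Icc (0 : ℤ) 5) ×ˢ (Finset.Icc (0 : ℤ) 5)).card := by
    apply Finset.card_le_card_of_injOn
      (fun z => (⌊((P z - c).re + 2) / 0.7⌋, ⌊((P z - c).im + 2) / 0.7⌋))
    · intro z hz
      have hn := hc z hz
      have hre := (Complex.abs_re_le_norm (P z - c)).trans hn
      have him := (Complex.abs_im_le_norm (P z - c)).trans hn
      rw [abs_le] at hre him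
      simp only [Finset.coe_product, Finset.coe_Icc, Set.mem_prod, Set.mem_Icc]
      refine ⟨⟨?_, ?_⟩, ⟨?_, ?_⟩⟩
      · exact Int.floor_nonneg.2 (div_nonneg (by linarith) (by norm_num))
      · have : ((P z - c).re + 2) / 0.7 < 6 := by
          rw [div_lt_iff₀ (by norm_num)]
          linarith
        have h2 := Int.floor_lt.2 (show ((P z - c).re + 2) / 0.7 < ((6 : ℤ) : ℝ) by
          push_cast; exact this)
        omega
      · exact Int.floor_nonneg.2 (div_nonneg (by linarith) (by norm_num))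
      · have : ((P z - c).im + 2) / 0.7 < 6 := by
          rw [div_lt_iff₀ (by norm_num)]
          linarith
        have h2 := Int.floor_lt.2 (show ((P z - c).im + 2) / 0.7 < ((6 : ℤ) : ℝ) by
          push_cast; exact this)
        omega
    · intro z hz w hw hzw
      simp only [Prod.mk.injEq] at hzw
      obtain ⟨ha, hb⟩ := hzw
      by_contra hne
      have hd := hs z hz w hw hne
      have e1 := Int.abs_sub_lt_one_of_floor_eq_floor ha
      have e2 := Int.abs_sub_lt_one_of_floor_eq_floor hb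
      have r1 : |(P z - P w).re| < 0.7 := by
        have : ((P z - c).re + 2) / 0.7 - ((P w - c).re + 2) / 0.7 = (P z - P w).re / 0.7 := by
          simp only [Complex.sub_re]
          ring
        rw [this, abs_div, abs_of_pos (by norm_num : (0 : ℝ) < 0.7),
          div_lt_one (by norm_num)] at e1
        exact e1
      have r2 : |(P z - P w).im| < 0.7 := by
        have : ((P z - c).im + 2) / 0.7 - ((P w - c).im + 2) / 0.7 = (P z - P w).im / 0.7 := by
          simp only [Complex.sub_im]
          ring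
        rw [this, abs_div, abs_of_pos (by norm_num : (0 : ℝ) < 0.7),
          div_lt_one (by norm_num)] at e2
        exact e2
      have h3 : ‖P z - P w‖ ^ 2 = (P z - P w).re ^ 2 + (P z - P w).im ^ 2 := by
        rw [← Complex.normSq_eq_norm_sq, Complex.normSq_apply]
        ring
      have h4 : (P z - P w).re ^ 2 < 0.49 := by
        rw [← sq_abs]
        nlinarith [abs_nonneg (P z - P w).re]
      have h5 : (P z - P w).im ^ 2 < 0.49 := by
        rw [← sq_abs]
        nlinarith [abs_nonneg (P z - P w).im]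
      nlinarith
  have h2 : ((Finset.Icc (0 : ℤ) 5) ×ˢ (Finset.Icc (0 : ℤ) 5)).card = 36 := by
    rw [Finset.card_product, Int.card_Icc]
    rfl
  omega

/-- the counting argument in the plane -/
lemma plane {ι : Type} [DecidableEq ι] (S : Finset ι) (P : ι → ℂ) (φ : ι → ι)
    (hφ : ∀ x ∈ S, φ x ∈ S) (hs : ∀ x ∈ S, ∀ y ∈ S, x ≠ y → 1 ≤ ‖P x - P y‖)
    (O : Set ℂ) (hO : ∀ e ∈ O, ∀ e' ∈ O, e ≠ e' → 1 ≤ ‖e - e'‖)
    (hdiv : ∀ x ∈ S, ∀ y ∈ S, ∃ e ∈ O, P (φ x) - P (φ y) = e * (P x - P y)) (d : ℕ)
    (hA : ∀ m ∈ S, ∀ e ∈ O,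
      (S.filter (fun a => P (φ a) - P (φ m) = e * (P a - P m))).card ≤ d ∧
      ∀ x ∈ S, x ∉ S.filter (fun a => P (φ a) - P (φ m) = e * (P a - P m)) →
        ∏ a ∈ S.filter (fun a => P (φ a) - P (φ m) = e * (P a - P m)), ‖P x - P a‖ ≤
          ‖P (φ x) - P (φ m) - e * (P x - P m)‖) :
    S.card ≤ max 2880 d := by
  classical
  rcases S.eq_empty_or_nonempty with hS0 | hSne
  · rw [hS0]; simp
  by_cases hall : ∃ m ∈ S, ∃ e ∈ O, S ⊆ S.filter (fun a => P (φ a) - P (φ m) = e * (P a - P m))
  · obtain ⟨m, hm, e, he, hsub⟩ := hall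
    exact (Finset.card_le_card hsub).trans ((hA m hm e he).1.trans (le_max_right _ _))
  push Not at hall
  obtain ⟨⟨m1, m2⟩, hmm, hmax⟩ := Finset.exists_max_image (S ×ˢ S)
    (fun p : ι × ι => ‖P p.1 - P p.2‖) (hSne.product hSne)
  rw [Finset.mem_product] at hmm
  obtain ⟨hm1, hm2⟩ := hmm
  simp only at hm1 hm2 hmax
  set L := ‖P m1 - P m2‖ with hL
  have hmaxL : ∀ x ∈ S, ∀ y ∈ S, ‖P x - P y‖ ≤ L := by
    intro x hx y hy
    exact hmax (x, y) (Finset.mem_product.2 ⟨hx, hy⟩)
  rcases eq_or_lt_of_le (show 0 ≤ L from norm_nonneg _) with hL0 | hLpos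
  · have : S.card ≤ 1 := by
      rw [Finset.card_le_one]
      intro x hx y hy
      by_contra hne
      have h1 := hs x hx y hy hne
      have h2 := hmaxL x hx y hy
      linarith
    omega
  -- points far from `m`
  have hfar : ∀ m ∈ S, (S.filter (fun x => L / 2 ≤ ‖P x - P m‖)).card ≤ 1440 := by
    intro m hm
    set F := S.filter (fun x => L / 2 ≤ ‖P x - P m‖) with hF
    have hsl : ∀ x ∈ S, ∃ e ∈ O, P (φ x) - P (φ m) = e * (P x - P m) := fun x hx =>
      hdiv x hx m hm
    choose! e heO he using hsl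
    have hsmall : ∀ x ∈ F, ‖e x‖ ≤ 2 := by
      intro x hx
      obtain ⟨hxS, hxL⟩ := Finset.mem_filter.1 hx
      have h1 := hmaxL _ (hφ x hxS) _ (hφ m hm)
      rw [he x hxS, norm_mul] at h1
      by_contra hcon
      push Not at hcon
      have h2 : 0 < ‖P x - P m‖ := by linarith
      nlinarith [norm_nonneg (e x)]
    have hE : (F.image e).card ≤ 36 := by
      apply grid (F.image e) id 0
      · intro z hz
        obtain ⟨x, hx, rfl⟩ := Finset.mem_image.1 hz
        simpa using hsmall x hx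
      · intro z hz w hw hne
        obtain ⟨x, hx, rfl⟩ := Finset.mem_image.1 hz
        obtain ⟨y, hy, rfl⟩ := Finset.mem_image.1 hw
        exact hO _ (heO x (Finset.mem_filter.1 hx).1) _ (heO y (Finset.mem_filter.1 hy).1) hne
    have hfib : ∀ c ∈ F.image e, (F.filter (fun x => e x = c)).card ≤ 40 := by
      intro c hc
      obtain ⟨a0, ha0, rfl⟩ := Finset.mem_image.1 hc
      obtain ⟨ha0S, ha0L⟩ := Finset.mem_filter.1 ha0
      set A := S.filter (fun a => P (φ a) - P (φ m) = e a0 * (P a - P m)) with hAd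
      have hsub : F.filter (fun x => e x = e a0) ⊆ A := by
        intro x hx
        obtain ⟨hxF, hxe⟩ := Finset.mem_filter.1 hx
        have hxS := (Finset.mem_filter.1 hxF).1
        refine Finset.mem_filter.2 ⟨hxS, ?_⟩
        rw [← hxe]
        exact he x hxS
      refine (Finset.card_le_card hsub).trans ?_
      have hnot := hall m hm (e a0) (heO a0 ha0S)
      rw [Finset.not_subset] at hnot
      obtain ⟨x, hx, hxA⟩ := hnot
      have hprod := (hA m hm (e a0) (heO a0 ha0S)).2 x hx hxA
      have hmA : m ∈ A := Finset.mem_filter.2 ⟨hm, by simp⟩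
      have ha0A : a0 ∈ A := Finset.mem_filter.2 ⟨ha0S, he a0 ha0S⟩
      have hup : ‖P (φ x) - P (φ m) - e a0 * (P x - P m)‖ ≤ 3 * L := by
        calc ‖P (φ x) - P (φ m) - e a0 * (P x - P m)‖
            ≤ ‖P (φ x) - P (φ m)‖ + ‖e a0 * (P x - P m)‖ := norm_sub_le _ _
          _ ≤ L + 2 * L := by
              rw [norm_mul]
              have h1 := hmaxL _ (hφ x hx) _ (hφ m hm)
              have h2 := hmaxL _ hx _ hm
              have h3 := hsmall a0 ha0
              have h4 := mul_le_mul h3 h2 (norm_nonneg _) (by norm_num)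
              linarith
          _ = 3 * L := by ring
      have hone : ∀ a ∈ A, 1 ≤ ‖P x - P a‖ := by
        intro a ha
        apply hs x hx a (Finset.mem_filter.1 ha).1
        intro h
        rw [h] at hxA
        exact hxA ha
      -- a far element of `A`
      obtain ⟨b, hbA, hb⟩ : ∃ b ∈ A, L / 4 ≤ ‖P x - P b‖ := by
        by_contra hcon
        push Not at hcon
        have h1 := hcon m hmA
        have h2 := hcon a0 ha0A
        have h3 : ‖P a0 - P m‖ ≤ ‖P x - P m‖ + ‖P x - P a0‖ := by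
          have : P a0 - P m = (P x - P m) - (P x - P a0) := by ring
          rw [this]
          exact norm_sub_le _ _
        linarith
      have hprod2 : ‖P x - P b‖ * ∏ a ∈ A.erase b, ‖P x - P a‖ ≤ 3 * L := by
        rw [Finset.mul_prod_erase A (fun a => ‖P x - P a‖) hbA]
        exact hprod.trans hup
      set N := (A.erase b).filter (fun a => ‖P x - P a‖ < 2) with hN
      set Q := (A.erase b).filter (fun a => ¬ ‖P x - P a‖ < 2) with hQ
      have hNcard : N.card ≤ 36 := by
        apply grid N P (P x)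
        · intro a ha
          rw [norm_sub_rev]
          exact (Finset.mem_filter.1 ha).2.le
        · intro a ha a' ha' hne
          exact hs a (Finset.mem_filter.1 (Finset.mem_of_mem_erase (Finset.mem_filter.1 ha).1)).1
            a' (Finset.mem_filter.1 (Finset.mem_of_mem_erase (Finset.mem_filter.1 ha').1)).1 hne
      have hQprod : (2 : ℝ) ^ Q.card ≤ ∏ a ∈ A.erase b, ‖P x - P a‖ := by
        rw [← Finset.prod_filter_mul_prod_filter_not (A.erase b) (fun a => ‖P x - P a‖ < 2)]
        have h1 : (1 : ℝ) ≤ ∏ a ∈ N, ‖P x - P a‖ := by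
          refine Finset.prod_induction _ (fun r : ℝ => 1 ≤ r) (fun a b ha hb => ?_) le_rfl
            (fun a ha => hone a (Finset.mem_of_mem_erase (Finset.mem_filter.1 ha).1))
          exact one_le_mul_of_one_le_of_one_le ha hb
        have h2 : (2 : ℝ) ^ Q.card ≤ ∏ a ∈ Q, ‖P x - P a‖ := by
          rw [← Finset.prod_const]
          apply Finset.prod_le_prod
          · intro a _; norm_num
          · intro a ha
            have := (Finset.mem_filter.1 ha).2
            linarith
        have h3 : (0 : ℝ) ≤ ∏ a ∈ Q, ‖P x - P a‖ :=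
          Finset.prod_nonneg (fun a _ => norm_nonneg _)
        nlinarith
      have hQ4 : Q.card ≤ 3 := by
        by_contra hcon
        push Not at hcon
        have h1 : (2 : ℝ) ^ 4 ≤ 2 ^ Q.card := pow_le_pow_right₀ (by norm_num) hcon
        have h2 : (16 : ℝ) ≤ ∏ a ∈ A.erase b, ‖P x - P a‖ := by
          have : (2 : ℝ) ^ 4 = 16 := by norm_num
          linarith
        nlinarith
      have hsum : N.card + Q.card = (A.erase b).card :=
        Finset.card_filter_add_card_filter_not (s := A.erase b) (fun a => ‖P x - P a‖ < 2)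
      have herase : (A.erase b).card + 1 = A.card := Finset.card_erase_add_one hbA
      omega
    have htot : F.card ≤ 40 * (F.image e).card :=
      Finset.card_le_mul_card_image F 40 hfib
    omega
  have hcover : S ⊆ S.filter (fun x => L / 2 ≤ ‖P x - P m1‖) ∪
      S.filter (fun x => L / 2 ≤ ‖P x - P m2‖) := by
    intro x hx
    rw [Finset.mem_union, Finset.mem_filter, Finset.mem_filter]
    by_contra hcon
    push Not at hcon
    have h1 := hcon.1 hx
    have h2 := hcon.2 hx
    have h3 : L ≤ ‖P x - P m1‖ + ‖P x - P m2‖ := by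
      have : P m1 - P m2 = (P x - P m2) - (P x - P m1) := by ring
      rw [hL, this]
      refine (norm_sub_le _ _).trans ?_
      linarith
    linarith
  have h1 := hfar m1 hm1
  have h2 := hfar m2 hm2
  have h3 := (Finset.card_le_card hcover).trans (Finset.card_union_le _ _)
  omega


/-- preperiodic points of a polynomial with unit leading coefficient are integral -/
lemma preper_integral (g : Polynomial (integralClosure ℤ ℂ)) (hu : IsUnit g.leadingCoeff)
    (hd : 2 ≤ g.natDegree) (z : ℂ) (m n : ℕ) (hmn : m < n)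
    (h : (fun y => (g.map (algebraMap (integralClosure ℤ ℂ) ℂ)).eval y)^[m] z =
      (fun y => (g.map (algebraMap (integralClosure ℤ ℂ) ℂ)).eval y)^[n] z) :
    IsIntegral ℤ z := by
  let P : ℕ → Polynomial (integralClosure ℤ ℂ) := fun k => (g.comp)^[k] Polynomial.X
  have hdeg : ∀ k, (P k).natDegree = g.natDegree ^ k := by
    intro k
    simp only [P]
    rw [Polynomial.natDegree_iterate_comp]
    simp
  have hlead : ∀ k, IsUnit (P k).leadingCoeff := by
    intro k
    induction k with
    | zero => simp [P]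
    | succ k ih =>
      have h1 : P (k + 1) = g.comp (P k) := by
        simp only [P]
        rw [Function.iterate_succ_apply']
      rw [h1, Polynomial.leadingCoeff_comp]
      · exact hu.mul (ih.pow _)
      · rw [hdeg]
        have : 0 < g.natDegree ^ k := pow_pos (by omega) _
        omega
  have heval : ∀ k, ((P k).map (algebraMap (integralClosure ℤ ℂ) ℂ)).eval z =
      (fun y => (g.map (algebraMap (integralClosure ℤ ℂ) ℂ)).eval y)^[k] z := by
    intro k
    induction k with
    | zero => simp [P]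
    | succ k ih =>
      have h1 : P (k + 1) = g.comp (P k) := by
        simp only [P]
        rw [Function.iterate_succ_apply']
      rw [h1, Polynomial.map_comp, Polynomial.eval_comp, ih, Function.iterate_succ_apply']
  have hlt : (P m).degree < (P n).degree := by
    apply Polynomial.degree_lt_degree
    rw [hdeg, hdeg]
    exact Nat.pow_lt_pow_right (by omega) hmn
  have hl : (P n - P m).leadingCoeff = (P n).leadingCoeff :=
    Polynomial.leadingCoeff_sub_of_degree_lt hlt
  have hun : IsUnit (P n - P m).leadingCoeff := by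
    rw [hl]
    exact hlead n
  obtain ⟨u, hu'⟩ := hun
  have hmonic : (Polynomial.C (((u⁻¹ : (integralClosure ℤ ℂ)ˣ)) : integralClosure ℤ ℂ) *
      (P n - P m)).Monic := by
    apply Polynomial.monic_C_mul_of_mul_leadingCoeff_eq_one
    rw [← hu']
    simp
  have hroot : IsIntegral (integralClosure ℤ ℂ) z := by
    refine ⟨_, hmonic, ?_⟩
    rw [Polynomial.eval₂_eq_eval_map, Polynomial.map_mul, Polynomial.map_sub,
      Polynomial.eval_mul, Polynomial.eval_sub, heval, heval, h]
    simp
  exact isIntegral_trans z hroot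

/-- the lattice spanned by the differences -/
lemma lattice (S : Finset ℚ) (m : ℚ) (α : ℂ) (hint : ∀ x ∈ S, IsIntegral ℤ (((x : ℂ) - m) / α))
    (hne : ∃ x ∈ S, x ≠ m) :
    ∃ l : ℚ, l ≠ 0 ∧ IsIntegral ℤ ((l : ℂ) / α) ∧ ∀ x ∈ S, ∃ j : ℤ, x - m = l * j := by
  classical
  obtain ⟨b, hb⟩ : ∃ b : ℕ, b = ∏ x ∈ S, (x - m).den := ⟨_, rfl⟩
  have hb0 : b ≠ 0 := by
    rw [hb, Finset.prod_ne_zero_iff]
    intro x _
    exact (x - m).den_ne_zero
  have hbq : (b : ℚ) ≠ 0 := by exact_mod_cast hb0
  have hint2 : ∀ x ∈ S, ∃ j : ℤ, (j : ℚ) = b * (x - m) := by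
    intro x hx
    have h1 : (x - m).den ∣ b := by
      rw [hb]
      exact Finset.dvd_prod_of_mem (fun x => (x - m).den) hx
    obtain ⟨c, hc⟩ := h1
    refine ⟨c * (x - m).num, ?_⟩
    rw [hc]
    push_cast
    have := Rat.mul_den_eq_num (x - m)
    rw [← this]
    ring
  let I : Ideal ℤ := Ideal.span {j : ℤ | ∃ x ∈ S, (j : ℚ) = b * (x - m)}
  have hG := Submodule.IsPrincipal.generator_mem I
  set G := Submodule.IsPrincipal.generator I with hGdef
  have hdiv : ∀ x ∈ S, ∃ j : ℤ, (b : ℚ) * (x - m) = G * j := by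
    intro x hx
    obtain ⟨j, hj⟩ := hint2 x hx
    have hmem : j ∈ I := Ideal.subset_span ⟨x, hx, hj⟩
    rw [Submodule.IsPrincipal.mem_iff_generator_dvd I] at hmem
    obtain ⟨c, hc⟩ := hmem
    refine ⟨c, ?_⟩
    rw [← hj, hc]
    push_cast
    rfl
  have hI : ∀ j ∈ I, IsIntegral ℤ (((j : ℂ) / b) / α) := by
    intro j hj
    induction hj using Submodule.span_induction with
    | mem j hj =>
      obtain ⟨x, hx, h⟩ := hj
      have h1 : (j : ℂ) / b = (x : ℂ) - m := by
        have hbc : (b : ℂ) ≠ 0 := by exact_mod_cast hb0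
        have h2 : (j : ℂ) = b * ((x : ℂ) - m) := by exact_mod_cast congrArg (fun q : ℚ => (q : ℂ)) h
        rw [h2]
        field_simp
      rw [h1]
      exact hint x hx
    | zero => simpa using isIntegral_zero
    | add x y _ _ hx hy =>
      have : (((x + y : ℤ) : ℂ) / b) / α = ((x : ℂ) / b) / α + ((y : ℂ) / b) / α := by
        push_cast
        ring
      rw [this]
      exact hx.add hy
    | smul a x _ hx =>
      have : (((a • x : ℤ) : ℂ) / b) / α = (a : ℂ) * (((x : ℂ) / b) / α) := by
        rw [smul_eq_mul]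
        push_cast
        ring
      rw [this]
      exact (isIntegral_algebraMap (R := ℤ) (x := a)).mul hx
  refine ⟨(G : ℚ) / b, ?_, ?_, ?_⟩
  · obtain ⟨x, hx, hxm⟩ := hne
    obtain ⟨j, hj⟩ := hdiv x hx
    intro h0
    rw [div_eq_zero_iff] at h0
    rcases h0 with h0 | h0
    · rw [h0, zero_mul] at hj
      have := mul_eq_zero.1 hj
      rcases this with h | h
      · exact hbq h
      · exact hxm (sub_eq_zero.1 h)
    · exact hbq h0
  · have := hI G hG
    push_cast
    exact this
  · intro x hx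
    obtain ⟨j, hj⟩ := hdiv x hx
    refine ⟨j, ?_⟩
    field_simp
    linarith


/-- a rational number that is an algebraic integer is an integer -/
lemma rat_int (q : ℚ) (hq : IsIntegral ℤ (q : ℂ)) : ∃ y : ℤ, (y : ℚ) = q := by
  have h1 : IsIntegral ℤ (algebraMap ℚ ℂ q) := hq
  rw [isIntegral_algebraMap_iff (FaithfulSMul.algebraMap_injective ℚ ℂ)] at h1
  exact IsIntegrallyClosed.isIntegral_iff.1 h1

/-- the product divides the value -/
lemma value_dvd {ι R : Type} [CommRing R] [IsDomain R] (g : Polynomial R) (A : Finset ι)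
    (zR : ι → R) (hinj : ∀ x ∈ A, ∀ y ∈ A, zR x = zR y → x = y)
    (hg : g ≠ 0) (hroot : ∀ a ∈ A, g.eval (zR a) = 0) :
    A.card ≤ g.natDegree ∧ ∃ r : Polynomial R,
      g = (∏ a ∈ A, (Polynomial.X - Polynomial.C (zR a))) * r := by
  classical
  have hsub : (A.image zR).val ≤ g.roots := by
    rw [Finset.val_le_iff_val_subset]
    intro y hy
    obtain ⟨a, ha, rfl⟩ := Finset.mem_image.1 hy
    rw [Polynomial.mem_roots hg]
    exact hroot a ha
  constructor
  · calc A.card = (A.image zR).card := (Finset.card_image_of_injOn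
          (fun x hx y hy h => hinj x hx y hy h)).symm
      _ ≤ Multiset.card g.roots := Multiset.card_le_card hsub
      _ ≤ g.natDegree := Polynomial.card_roots' g
  · have h1 : ((A.image zR).val.map fun a => Polynomial.X - Polynomial.C a).prod ∣ g :=
      (Multiset.prod_dvd_prod_of_le (Multiset.map_le_map hsub)).trans
        (Polynomial.prod_multiset_X_sub_C_dvd g)
    have h2 : ((A.image zR).val.map fun a => Polynomial.X - Polynomial.C a).prod =
        ∏ a ∈ A, (Polynomial.X - Polynomial.C (zR a)) := by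
      change ∏ a ∈ A.image zR, (Polynomial.X - Polynomial.C a) = _
      rw [Finset.prod_image (fun x hx y hy h => hinj x hx y hy h)]
    rw [h2] at h1
    exact h1

/-- from finite invariant sets of preperiodic points to all preperiodic points -/
lemma count {R : Type} [CommRing R] (f : Polynomial R) (B : ℕ)
    (hB : ∀ S : Finset R, (∀ x ∈ S, f.eval x ∈ S) → (∀ x ∈ S, IsPreper f x) → S.card ≤ B) :
    {x : R | IsPreper f x}.Finite ∧ {x : R | IsPreper f x}.ncard ≤ B := by
  classical
  have hT : ∀ T : Finset R, (∀ x ∈ T, IsPreper f x) → T.card ≤ B := by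
    intro T hT
    choose! m n hmn heq using hT
    let S : Finset R := T.biUnion (fun x => (Finset.range (n x)).image
      (fun i => (fun y => f.eval y)^[i] x))
    have hTS : T ⊆ S := by
      intro x hx
      refine Finset.mem_biUnion.2 ⟨x, hx, Finset.mem_image.2 ⟨0, ?_, by simp⟩⟩
      rw [Finset.mem_range]
      have := hmn x hx
      omega
    refine (Finset.card_le_card hTS).trans (hB S ?_ ?_)
    · intro y hy
      obtain ⟨x, hx, hy⟩ := Finset.mem_biUnion.1 hy
      obtain ⟨i, hi, rfl⟩ := Finset.mem_image.1 hy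
      rw [Finset.mem_range] at hi
      refine Finset.mem_biUnion.2 ⟨x, hx, ?_⟩
      have hstep : f.eval ((fun y => f.eval y)^[i] x) = (fun y => f.eval y)^[i + 1] x := by
        rw [Function.iterate_succ_apply']
      rw [hstep]
      rcases Nat.lt_or_ge (i + 1) (n x) with h | h
      · exact Finset.mem_image.2 ⟨i + 1, Finset.mem_range.2 h, rfl⟩
      · have h1 : i + 1 = n x := by omega
        rw [h1, ← heq x hx]
        exact Finset.mem_image.2 ⟨m x, Finset.mem_range.2 (hmn x hx), rfl⟩
    · intro y hy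
      obtain ⟨x, hx, hy⟩ := Finset.mem_biUnion.1 hy
      obtain ⟨i, hi, rfl⟩ := Finset.mem_image.1 hy
      refine ⟨m x, n x, hmn x hx, ?_⟩
      rw [← Function.iterate_add_apply, ← Function.iterate_add_apply, add_comm (m x),
        add_comm (n x), Function.iterate_add_apply, Function.iterate_add_apply, heq x hx]
  have hfin : {x : R | IsPreper f x}.Finite := by
    by_contra hinf
    obtain ⟨t, ht, hc⟩ := Set.Infinite.exists_subset_card_eq hinf (B + 1)
    have := hT t (fun x hx => ht hx)
    omega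
  refine ⟨hfin, ?_⟩
  rw [Set.ncard_eq_toFinset_card _ hfin]
  exact hT _ (fun x hx => by simpa using hx)


/-- norms are rational -/
lemma norm_rat (K : Subfield ℂ) (hconj : ∀ x ∈ K, starRingEnd ℂ x ∈ K)
    (hreal : ∀ x ∈ K, x.im = 0 → ∃ q : ℚ, x = q) (x : ℂ) (hx : x ∈ K) :
    ∃ q : ℚ, x * starRingEnd ℂ x = q ∧ ‖x‖ ^ 2 = (q : ℝ) := by
  have h1 : x * starRingEnd ℂ x = ((Complex.normSq x : ℝ) : ℂ) := Complex.mul_conj x
  obtain ⟨q, hq⟩ := hreal (x * starRingEnd ℂ x) (K.mul_mem hx (hconj x hx)) (by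
    rw [h1]; exact Complex.ofReal_im _)
  refine ⟨q, hq, ?_⟩
  rw [← Complex.normSq_eq_norm_sq]
  rw [h1] at hq
  exact_mod_cast hq

lemma conj_integral (x : ℂ) (hx : IsIntegral ℤ x) : IsIntegral ℤ (starRingEnd ℂ x) :=
  map_isIntegral_int (starRingEnd ℂ) hx

/-- nonzero algebraic integers of the field have absolute value at least one -/
lemma norm_ge_one (K : Subfield ℂ) (hconj : ∀ x ∈ K, starRingEnd ℂ x ∈ K)
    (hreal : ∀ x ∈ K, x.im = 0 → ∃ q : ℚ, x = q) (x : ℂ) (hx : x ∈ K)
    (hi : IsIntegral ℤ x) (h0 : x ≠ 0) : 1 ≤ ‖x‖ := by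
  obtain ⟨q, hq, hn⟩ := norm_rat K hconj hreal x hx
  have h1 : IsIntegral ℤ (q : ℂ) := by
    rw [← hq]
    exact hi.mul (conj_integral x hi)
  obtain ⟨y, hy⟩ := rat_int q h1
  have h2 : ‖x‖ ^ 2 = (y : ℝ) := by
    rw [hn, ← hy]
    push_cast
    rfl
  have hpos : 0 < ‖x‖ := norm_pos_iff.2 h0
  have h3 : (0 : ℝ) < y := by
    rw [← h2]
    positivity
  have h4 : 0 < y := by exact_mod_cast h3
  have h5 : (1 : ℝ) ≤ y := by exact_mod_cast h4
  rw [← h2] at h5
  nlinarith

/-- positive generator -/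
lemma lattice_pos (S : Finset ℚ) (α : ℂ) (hint : ∀ x ∈ S, IsIntegral ℤ ((x : ℂ) / α))
    (hne : ∃ x ∈ S, x ≠ 0) :
    ∃ l : ℚ, 0 < l ∧ IsIntegral ℤ ((l : ℂ) / α) ∧ ∀ x ∈ S, ∃ j : ℤ, x = l * j := by
  obtain ⟨l, hl0, hlint, hlk⟩ := lattice S 0 α (by
    intro x hx
    have : ((x : ℂ) - ((0 : ℚ) : ℂ)) / α = (x : ℂ) / α := by push_cast; ring
    rw [this]
    exact hint x hx) hne
  rcases lt_or_gt_of_ne hl0 with h | h
  · refine ⟨-l, by linarith, ?_, ?_⟩
    · have : (((-l : ℚ)) : ℂ) / α = -((l : ℂ) / α) := by push_cast; ring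
      rw [this]
      exact hlint.neg
    · intro x hx
      obtain ⟨j, hj⟩ := hlk x hx
      refine ⟨-j, ?_⟩
      push_cast
      linarith
  · refine ⟨l, h, hlint, ?_⟩
    intro x hx
    obtain ⟨j, hj⟩ := hlk x hx
    exact ⟨j, by linarith⟩

/-- the bound for finite invariant sets -/
lemma bound (K : Subfield ℂ) (hconj : ∀ x ∈ K, starRingEnd ℂ x ∈ K)
    (hreal : ∀ x ∈ K, x.im = 0 → ∃ q : ℚ, x = q)
    (f : Polynomial K) (d : ℕ) (hd : 2 ≤ d) (α β : ℂ) (hα : α ≠ 0)
    (g : Polynomial (integralClosure ℤ ℂ)) (hgd : g.natDegree = d)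
    (hfg : ∀ x : K, ((f.eval x : K) : ℂ) =
      α * (g.map (algebraMap (integralClosure ℤ ℂ) ℂ)).eval (((x : ℂ) - β) / α) + β)
    (S : Finset K) (hS : ∀ x ∈ S, f.eval x ∈ S)
    (hint : ∀ x ∈ S, IsIntegral ℤ (((x : ℂ) - β) / α)) :
    S.card ≤ max 2880 d := by
  classical
  by_cases hne : ∃ m ∈ S, ∃ m' ∈ S, m' ≠ m
  swap
  · push Not at hne
    have : S.card ≤ 1 := by
      rw [Finset.card_le_one]
      intro a ha b hb
      exact hne b hb a ha
    omega
  obtain ⟨m₀, hm₀, m₁, hm₁, hmne⟩ := hne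
  have hnr : ∀ x y : K, ∃ q : ℚ, ((x : ℂ) - y) * starRingEnd ℂ ((x : ℂ) - y) = q ∧
      ‖(x : ℂ) - y‖ ^ 2 = (q : ℝ) := fun x y =>
    norm_rat K hconj hreal _ (K.sub_mem x.2 y.2)
  choose nq hnq1 hnq2 using hnr
  have hdint : ∀ x ∈ S, ∀ y ∈ S, IsIntegral ℤ (((x : ℂ) - y) / α) := by
    intro x hx y hy
    have : ((x : ℂ) - y) / α = ((x : ℂ) - β) / α - ((y : ℂ) - β) / α := by ring
    rw [this]
    exact (hint x hx).sub (hint y hy)
  have hαc : starRingEnd ℂ α ≠ 0 := by
    intro h
    exact hα ((map_eq_zero (starRingEnd ℂ)).1 h)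
  have hαα : α * starRingEnd ℂ α ≠ 0 := mul_ne_zero hα hαc
  obtain ⟨l, hl0, hlint, hlk⟩ := lattice_pos ((S ×ˢ S).image (fun p => nq p.1 p.2))
    (α * starRingEnd ℂ α) (by
      intro q hq
      obtain ⟨⟨x, y⟩, hxy, rfl⟩ := Finset.mem_image.1 hq
      rw [Finset.mem_product] at hxy
      rw [← hnq1 x y]
      have h1 : ((x : ℂ) - y) * starRingEnd ℂ ((x : ℂ) - y) / (α * starRingEnd ℂ α) =
          (((x : ℂ) - y) / α) * starRingEnd ℂ (((x : ℂ) - y) / α) := by
        rw [map_div₀]
        field_simp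
      rw [h1]
      exact (hdint x hxy.1 y hxy.2).mul (conj_integral _ (hdint x hxy.1 y hxy.2)))
    (by
      refine ⟨nq m₁ m₀, Finset.mem_image.2 ⟨(m₁, m₀), Finset.mem_product.2 ⟨hm₁, hm₀⟩, rfl⟩, ?_⟩
      intro h0
      have h1 := hnq2 m₁ m₀
      rw [h0] at h1
      have h2 : ‖(m₁ : ℂ) - m₀‖ = 0 := by
        have : ‖(m₁ : ℂ) - m₀‖ ^ 2 = 0 := by rw [h1]; simp
        exact pow_eq_zero_iff (two_ne_zero) |>.1 this
      rw [norm_eq_zero, sub_eq_zero] at h2
      exact hmne (Subtype.ext h2))
  have hlR : (0 : ℝ) < (l : ℝ) := by exact_mod_cast hl0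
  -- integral multiples
  have hj : ∀ x ∈ S, ∀ y ∈ S, ∃ j : ℤ, nq x y = l * j := by
    intro x hx y hy
    exact hlk _ (Finset.mem_image.2 ⟨(x, y), Finset.mem_product.2 ⟨hx, hy⟩, rfl⟩)
  choose! j hj using hj
  have hjpos : ∀ x ∈ S, ∀ y ∈ S, x ≠ y → 1 ≤ j x y := by
    intro x hx y hy hxy
    have h1 := hnq2 x y
    rw [hj x hx y hy] at h1
    have h2 : 0 < ‖(x : ℂ) - y‖ := by
      rw [norm_pos_iff, sub_ne_zero]
      intro h
      exact hxy (Subtype.ext h)
    have h3 : (0 : ℝ) < (l : ℝ) * (j x y : ℝ) := by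
      have : ((l * (j x y : ℚ) : ℚ) : ℝ) = (l : ℝ) * (j x y : ℝ) := by push_cast; rfl
      rw [← this, ← h1]
      positivity
    have h4 : (0 : ℝ) < (j x y : ℝ) := (pos_iff_pos_of_mul_pos h3).1 hlR
    have h5 : 0 < j x y := by exact_mod_cast h4
    omega
  set s : ℝ := (Real.sqrt l)⁻¹ with hs
  have hsq : s ^ 2 = (l : ℝ)⁻¹ := by
    rw [hs, inv_pow, Real.sq_sqrt hlR.le]
  have hspos : 0 < s := by
    rw [hs]
    exact inv_pos.2 (Real.sqrt_pos.2 hlR)
  have hsC : (s : ℂ) ≠ 0 := by exact_mod_cast hspos.ne'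
  let P : K → ℂ := fun x => (s : ℂ) * (x : ℂ)
  have hPn : ∀ x y : K, ‖P x - P y‖ = s * ‖(x : ℂ) - y‖ := by
    intro x y
    simp only [P]
    rw [← mul_sub, norm_mul, Complex.norm_real, Real.norm_of_nonneg hspos.le]
  have hPsq : ∀ x ∈ S, ∀ y ∈ S, ‖P x - P y‖ ^ 2 = (j x y : ℝ) := by
    intro x hx y hy
    rw [hPn, mul_pow, hsq, hnq2 x y, hj x hx y hy]
    push_cast
    field_simp
  let zR : K → integralClosure ℤ ℂ := fun x =>
    if h : IsIntegral ℤ (((x : ℂ) - β) / α) then ⟨_, h⟩ else 0
  have hz : ∀ x ∈ S, ((zR x : integralClosure ℤ ℂ) : ℂ) = ((x : ℂ) - β) / α := by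
    intro x hx
    simp only [zR]
    rw [dif_pos (hint x hx)]
  have hzinj : ∀ x ∈ S, ∀ y ∈ S, zR x = zR y → x = y := by
    intro x hx y hy h
    have h1 := congrArg (fun t : integralClosure ℤ ℂ => (t : ℂ)) h
    simp only [hz x hx, hz y hy] at h1
    have h2 : (x : ℂ) = y := by
      field_simp at h1
      linear_combination h1
    exact Subtype.ext h2
  have hev : ∀ x ∈ S, ((g.eval (zR x) : integralClosure ℤ ℂ) : ℂ) =
      (((f.eval x : K) : ℂ) - β) / α := by
    intro x hx
    have h1 : ((g.eval (zR x) : integralClosure ℤ ℂ) : ℂ) =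
        (g.map (algebraMap (integralClosure ℤ ℂ) ℂ)).eval (((x : ℂ) - β) / α) := by
      rw [← hz x hx]
      exact (Polynomial.eval_map_apply (f := algebraMap (integralClosure ℤ ℂ) ℂ) (p := g) (zR x)).symm
    rw [h1, hfg x]
    field_simp
    ring
  apply plane S P (fun x => f.eval x) hS ?_ {e : ℂ | e ∈ K ∧ IsIntegral ℤ e} ?_ ?_ d ?_
  · intro x hx y hy hxy
    have h1 := hPsq x hx y hy
    have h2 : (1 : ℝ) ≤ (j x y : ℝ) := by exact_mod_cast hjpos x hx y hy hxy
    rw [← h1] at h2
    nlinarith [norm_nonneg (P x - P y)]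
  · intro e he e' he' hne
    exact norm_ge_one K hconj hreal (e - e') (K.sub_mem he.1 he'.1) (he.2.sub he'.2)
      (sub_ne_zero.2 hne)
  · intro x hx y hy
    by_cases hxy : x = y
    · refine ⟨0, ⟨K.zero_mem, isIntegral_zero⟩, ?_⟩
      rw [hxy]
      simp
    · obtain ⟨r, hr⟩ := Polynomial.sub_dvd_eval_sub (zR x) (zR y) g
      have h1 : ((g.eval (zR x) - g.eval (zR y) : integralClosure ℤ ℂ) : ℂ) =
          (((zR x - zR y) * r : integralClosure ℤ ℂ) : ℂ) :=
        congrArg (fun t : integralClosure ℤ ℂ => (t : ℂ)) hr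
      push_cast at h1
      rw [hev x hx, hev y hy, hz x hx, hz y hy] at h1
      have h2 : ((f.eval x : K) : ℂ) - ((f.eval y : K) : ℂ) = (r : ℂ) * ((x : ℂ) - y) := by
        field_simp at h1
        linear_combination h1
      have hxyC : (x : ℂ) - y ≠ 0 := sub_ne_zero.2 (fun h => hxy (Subtype.ext h))
      refine ⟨(r : ℂ), ⟨?_, r.2⟩, ?_⟩
      · have h3 : (r : ℂ) = (((f.eval x : K) : ℂ) - ((f.eval y : K) : ℂ)) / ((x : ℂ) - y) := by
          rw [h2]
          field_simp
        rw [h3]
        exact K.div_mem (K.sub_mem (f.eval x).2 (f.eval y).2) (K.sub_mem x.2 y.2)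
      · simp only [P]
        linear_combination (s : ℂ) * h2
  · intro m hm e he
    obtain ⟨heK, hei⟩ := he
    set A := S.filter (fun a => P (f.eval a) - P (f.eval m) = e * (P a - P m)) with hA
    have hAS : A ⊆ S := Finset.filter_subset _ _
    have hAiff : ∀ a ∈ S, (a ∈ A ↔ ((f.eval a : K) : ℂ) - ((f.eval m : K) : ℂ) -
        e * ((a : ℂ) - m) = 0) := by
      intro a ha
      rw [hA, Finset.mem_filter]
      simp only [P]
      constructor
      · rintro ⟨_, h⟩
        apply mul_left_cancel₀ hsC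
        linear_combination h
      · intro h
        exact ⟨ha, by linear_combination (s : ℂ) * h⟩
    let eR : integralClosure ℤ ℂ := ⟨e, hei⟩
    let c0 : integralClosure ℤ ℂ := g.eval (zR m) - eR * zR m
    let q : Polynomial (integralClosure ℤ ℂ) := Polynomial.C eR * Polynomial.X + Polynomial.C c0
    let h : Polynomial (integralClosure ℤ ℂ) := g - q
    have hq : q.natDegree < g.natDegree := by
      have : q.natDegree ≤ 1 := Polynomial.natDegree_linear_le
      omega
    have hhd : h.natDegree = d := by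
      rw [← hgd]
      exact Polynomial.natDegree_sub_eq_left_of_natDegree_lt hq
    have hh0 : h ≠ 0 := by
      intro h0
      rw [h0, Polynomial.natDegree_zero] at hhd
      omega
    have hval : ∀ x ∈ S, ((h.eval (zR x) : integralClosure ℤ ℂ) : ℂ) =
        (((f.eval x : K) : ℂ) - ((f.eval m : K) : ℂ) - e * ((x : ℂ) - m)) / α := by
      intro x hx
      have h1 : ((h.eval (zR x) : integralClosure ℤ ℂ) : ℂ) =
          ((g.eval (zR x) : integralClosure ℤ ℂ) : ℂ) -
            (e * ((zR x : integralClosure ℤ ℂ) : ℂ) +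
              (((g.eval (zR m) : integralClosure ℤ ℂ) : ℂ) -
                e * ((zR m : integralClosure ℤ ℂ) : ℂ))) := by
        simp only [h, q, c0, Polynomial.eval_sub, Polynomial.eval_add, Polynomial.eval_mul,
          Polynomial.eval_C, Polynomial.eval_X]
        push_cast
        rfl
      rw [h1, hev x hx, hz x hx, hz m hm, hev m hm]
      field_simp
      ring
    have hroot : ∀ a ∈ A, h.eval (zR a) = 0 := by
      intro a ha
      have h1 := hval a (hAS ha)
      rw [(hAiff a (hAS ha)).1 ha, zero_div] at h1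
      apply Subtype.ext
      simpa using h1
    obtain ⟨hcard, r, hr⟩ := value_dvd h A zR
      (fun x hx y hy => hzinj x (hAS hx) y (hAS hy)) hh0 hroot
    refine ⟨by rw [← hhd]; exact hcard, ?_⟩
    intro x hx hxA
    set Dd : ℂ := ((f.eval x : K) : ℂ) - ((f.eval m : K) : ℂ) - e * ((x : ℂ) - m) with hDd
    have hD0 : Dd ≠ 0 := fun h0 => hxA ((hAiff x hx).2 h0)
    have hDK : Dd ∈ K := K.sub_mem (K.sub_mem (f.eval x).2 (f.eval m).2)
      (K.mul_mem heK (K.sub_mem x.2 m.2))
    obtain ⟨qD, hqD1, hqD2⟩ := norm_rat K hconj hreal Dd hDK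
    set ρ : ℂ := ((r.eval (zR x) : integralClosure ℤ ℂ) : ℂ) with hρ
    have hρi : IsIntegral ℤ ρ := (r.eval (zR x)).2
    have hfac : Dd / α = (∏ a ∈ A, (((x : ℂ) - a) / α)) * ρ := by
      rw [← hval x hx, hr, Polynomial.eval_mul, Polynomial.eval_prod]
      push_cast
      congr 1
      apply Finset.prod_congr rfl
      intro a ha
      rw [Polynomial.eval_sub, Polynomial.eval_X, Polynomial.eval_C]
      push_cast
      rw [hz x hx, hz a (hAS ha)]
      ring
    set κ : ℂ := (l : ℂ) / (α * starRingEnd ℂ α) with hκ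
    set J : ℤ := ∏ a ∈ A, j x a with hJ
    have hnorm : (qD : ℂ) / (α * starRingEnd ℂ α) =
        κ ^ A.card * (J : ℂ) * (ρ * starRingEnd ℂ ρ) := by
      have h1 : (qD : ℂ) / (α * starRingEnd ℂ α) = (Dd / α) * starRingEnd ℂ (Dd / α) := by
        rw [← hqD1, map_div₀]
        field_simp
      rw [h1, hfac, map_mul, map_prod]
      have h2 : ∏ a ∈ A, (κ * ((j x a : ℤ) : ℂ)) =
          (∏ a ∈ A, (((x : ℂ) - a) / α)) * ∏ a ∈ A, starRingEnd ℂ (((x : ℂ) - a) / α) := by
        rw [← Finset.prod_mul_distrib]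
        apply Finset.prod_congr rfl
        intro a ha
        have h3 := hnq1 x a
        rw [hj x hx a (hAS ha)] at h3
        rw [map_div₀, hκ]
        have h4 : ((x : ℂ) - a) / α * (starRingEnd ℂ ((x : ℂ) - a) / starRingEnd ℂ α) =
            (((x : ℂ) - a) * starRingEnd ℂ ((x : ℂ) - a)) / (α * starRingEnd ℂ α) := by
          field_simp
        rw [h4, h3]
        push_cast
        ring
      rw [Finset.prod_mul_distrib, Finset.prod_const] at h2
      have h5 : (J : ℂ) = ∏ a ∈ A, ((j x a : ℤ) : ℂ) := by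
        rw [hJ]
        push_cast
        rfl
      rw [h5]
      linear_combination (- (ρ * starRingEnd ℂ ρ)) * h2
    have hmA : m ∈ A := (hAiff m hm).2 (by ring)
    obtain ⟨n, hn⟩ := Nat.exists_eq_add_of_le (Finset.card_pos.2 ⟨m, hmA⟩)
    have hn' : A.card = n + 1 := by omega
    have hxa : ∀ a ∈ A, x ≠ a := by
      intro a ha h
      rw [h] at hxA
      exact hxA ha
    have hJpos : 1 ≤ J := by
      rw [hJ]
      refine Finset.prod_induction _ (fun r : ℤ => 1 ≤ r) (fun a b ha hb => ?_) le_rfl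
        (fun a ha => hjpos x hx a (hAS ha) (hxa a ha))
      exact one_le_mul_of_one_le_of_one_le ha hb
    have hJC : (J : ℂ) ≠ 0 := by
      have : J ≠ 0 := by omega
      exact_mod_cast this
    have hJQ : (0 : ℚ) < (J : ℚ) := by
      have : 0 < J := by omega
      exact_mod_cast this
    have hlC : (l : ℂ) ≠ 0 := by exact_mod_cast hl0.ne'
    have hrat : ((qD / (l * J) : ℚ) : ℂ) = κ ^ n * (ρ * starRingEnd ℂ ρ) := by
      rw [hn', pow_succ] at hnorm
      push_cast
      have h1 : (qD : ℂ) = (α * starRingEnd ℂ α) *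
          (κ ^ n * κ * (J : ℂ) * (ρ * starRingEnd ℂ ρ)) := by
        rw [← hnorm]
        field_simp
      have h2 : (α * starRingEnd ℂ α) * κ = (l : ℂ) := by
        rw [hκ]
        field_simp
      have h3 : (qD : ℂ) = (l : ℂ) * (J : ℂ) * (κ ^ n * (ρ * starRingEnd ℂ ρ)) := by
        rw [h1]
        linear_combination (κ ^ n * (J : ℂ) * (ρ * starRingEnd ℂ ρ)) * h2
      rw [h3]
      field_simp
    have hratint : IsIntegral ℤ ((qD / (l * J) : ℚ) : ℂ) := by
      rw [hrat]
      exact (hlint.pow n).mul (hρi.mul (conj_integral ρ hρi))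
    obtain ⟨y, hy⟩ := rat_int _ hratint
    have hqDpos : (0 : ℝ) < (qD : ℝ) := by
      rw [← hqD2]
      have : 0 < ‖Dd‖ := norm_pos_iff.2 hD0
      positivity
    have hqDpos' : 0 < qD := by exact_mod_cast hqDpos
    have hypos : 1 ≤ y := by
      have h1 : (0 : ℚ) < (y : ℚ) := by
        rw [hy]
        positivity
      have h2 : 0 < y := by exact_mod_cast h1
      omega
    have hJle : (J : ℝ) ≤ (qD : ℝ) / l := by
      have h1 : (y : ℚ) * (l * J) = qD := by
        rw [hy]
        field_simp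
      have h2 : (y : ℝ) * ((l : ℝ) * (J : ℝ)) = (qD : ℝ) := by exact_mod_cast congrArg (fun t : ℚ => (t : ℝ)) h1
      rw [le_div_iff₀ hlR, ← h2]
      have h3 : (1 : ℝ) ≤ (y : ℝ) := by exact_mod_cast hypos
      have h4 : (0 : ℝ) ≤ (l : ℝ) * (J : ℝ) := by
        have : (0 : ℝ) < (J : ℝ) := by exact_mod_cast hJQ
        positivity
      nlinarith
    have hR : ‖P (f.eval x) - P (f.eval m) - e * (P x - P m)‖ = s * ‖Dd‖ := by
      have : P (f.eval x) - P (f.eval m) - e * (P x - P m) = (s : ℂ) * Dd := by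
        simp only [P, hDd]
        ring
      rw [this, norm_mul, Complex.norm_real, Real.norm_of_nonneg hspos.le]
    rw [hR]
    have hsq1 : (∏ a ∈ A, ‖P x - P a‖) ^ 2 = (J : ℝ) := by
      rw [← Finset.prod_pow, hJ]
      push_cast
      apply Finset.prod_congr rfl
      intro a ha
      exact hPsq x hx a (hAS ha)
    have hsq2 : (s * ‖Dd‖) ^ 2 = (qD : ℝ) / l := by
      rw [mul_pow, hsq, hqD2]
      ring
    have hle : (∏ a ∈ A, ‖P x - P a‖) ^ 2 ≤ (s * ‖Dd‖) ^ 2 := by
      rw [hsq1, hsq2]
      exact hJle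
    exact (pow_le_pow_iff_left₀ (Finset.prod_nonneg (fun a _ => norm_nonneg _))
      (mul_nonneg hspos.le (norm_nonneg _)) two_ne_zero).1 hle


/-- upper bound -/
lemma upper (K : Subfield ℂ) (hconj : ∀ x ∈ K, starRingEnd ℂ x ∈ K)
    (hreal : ∀ x ∈ K, x.im = 0 → ∃ q : ℚ, x = q)
    (f : Polynomial K) (d : ℕ) (hd : 2 ≤ d) (hf : f.natDegree = d) (hgood : PotGood f) :
    {x : K | IsPreper f x}.Finite ∧ {x : K | IsPreper f x}.ncard ≤ max 2880 d := by
  obtain ⟨α, β, g, hα, hu, heq⟩ := hgood
  have hinj : Function.Injective (algebraMap (integralClosure ℤ ℂ) ℂ) :=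
    FaithfulSMul.algebraMap_injective _ _
  have hlin : (Polynomial.C α * Polynomial.X + Polynomial.C β).natDegree = 1 :=
    Polynomial.natDegree_linear hα
  have hgd : g.natDegree = d := by
    have h1 := congrArg Polynomial.natDegree heq
    rw [Polynomial.natDegree_comp, hlin, mul_one, Polynomial.natDegree_add_C,
      Polynomial.natDegree_C_mul hα, Polynomial.natDegree_map_eq_of_injective hinj,
      Polynomial.natDegree_map_eq_of_injective K.subtype.injective, hf] at h1
    exact h1.symm
  have hfg : ∀ x : K, ((f.eval x : K) : ℂ) =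
      α * (g.map (algebraMap (integralClosure ℤ ℂ) ℂ)).eval (((x : ℂ) - β) / α) + β := by
    intro x
    have h1 := congrArg (Polynomial.eval (((x : ℂ) - β) / α)) heq
    rw [Polynomial.eval_comp] at h1
    simp only [Polynomial.eval_add, Polynomial.eval_mul, Polynomial.eval_C,
      Polynomial.eval_X] at h1
    rw [← h1]
    have h2 : α * (((x : ℂ) - β) / α) + β = (x : ℂ) := by
      field_simp
      ring
    rw [h2]
    exact (Polynomial.eval_map_apply (f := K.subtype) (p := f) x).symm
  have hiter : ∀ (n : ℕ) (x : K), ((((fun y => f.eval y)^[n] x : K) : ℂ) - β) / α =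
      (fun y => (g.map (algebraMap (integralClosure ℤ ℂ) ℂ)).eval y)^[n]
        (((x : ℂ) - β) / α) := by
    intro n
    induction n with
    | zero => intro x; simp
    | succ n ih =>
      intro x
      rw [Function.iterate_succ_apply, Function.iterate_succ_apply, ih, hfg x]
      congr 1
      field_simp
      ring
  apply count f (max 2880 d)
  intro S hS hpre
  apply bound K hconj hreal f d hd α β hα g hgd hfg S hS
  intro x hx
  obtain ⟨m, n, hmn, h⟩ := hpre x hx
  apply preper_integral g hu (by omega) _ m n hmn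
  rw [← hiter, ← hiter, h]

/-- examples with `d` preperiodic points -/
lemma exists_sharp (K : Subfield ℂ) (hconj : ∀ x ∈ K, starRingEnd ℂ x ∈ K)
    (hreal : ∀ x ∈ K, x.im = 0 → ∃ q : ℚ, x = q) (d : ℕ) (hd : 2880 ≤ d) :
    ∃ f : Polynomial K, f.natDegree = d ∧ PotGood f ∧ {x : K | IsPreper f x}.ncard = d := by
  classical
  let F : (R : Type) → [CommRing R] → Polynomial R := fun R _ =>
    ∏ i ∈ Finset.range d, (Polynomial.X - Polynomial.C (i : R))
  have hmon : ∀ (R : Type) [CommRing R], (F R).Monic := fun R _ =>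
    Polynomial.monic_prod_of_monic _ _ (fun i _ => Polynomial.monic_X_sub_C _)
  have hdeg : (F K).natDegree = d := by
    simp only [F]
    rw [Polynomial.natDegree_prod_of_monic _ _ (fun i _ => Polynomial.monic_X_sub_C _)]
    have h1 : ∀ i ∈ Finset.range d,
        ((Polynomial.X : Polynomial K) - Polynomial.C (i : K)).natDegree = 1 :=
      fun i _ => Polynomial.natDegree_X_sub_C (i : K)
    rw [Finset.sum_congr rfl h1]
    simp
  have hgood : PotGood (F K) := by
    refine ⟨1, 0, F (integralClosure ℤ ℂ), one_ne_zero, ?_, ?_⟩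
    · rw [(hmon _).leadingCoeff]
      exact isUnit_one
    · simp only [F, Polynomial.map_prod, Polynomial.map_sub, Polynomial.map_X, map_natCast]
      simp
  have hz : ∀ j ∈ Finset.range d, (F K).eval (j : K) = 0 := by
    intro j hj
    simp only [F]
    rw [Polynomial.eval_prod]
    exact Finset.prod_eq_zero hj (by simp)
  obtain ⟨hfin, hle⟩ := upper K hconj hreal (F K) d (by omega) hdeg hgood
  refine ⟨F K, hdeg, hgood, le_antisymm ?_ ?_⟩
  · rw [max_eq_right hd] at hle
    exact hle
  · have hcard : ((Finset.range d).image (fun i : ℕ => (i : K))).card = d := by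
      rw [Finset.card_image_of_injective _ Nat.cast_injective, Finset.card_range]
    calc d = ((Finset.range d).image (fun i : ℕ => (i : K))).card := hcard.symm
      _ = (((Finset.range d).image (fun i : ℕ => (i : K)) : Finset K) : Set K).ncard :=
          (Set.ncard_coe_finset _).symm
      _ ≤ {x : K | IsPreper (F K) x}.ncard := by
          refine Set.ncard_le_ncard ?_ hfin
          intro y hy
          obtain ⟨i, hi, rfl⟩ := Finset.mem_image.1 (Finset.mem_coe.1 hy)
          have h0 : (0 : ℕ) ∈ Finset.range d := Finset.mem_range.2 (by omega)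
          refine ⟨1, 2, by norm_num, ?_⟩
          have h1 := hz i hi
          have h2 := hz 0 h0
          rw [Nat.cast_zero] at h2
          simp only [Function.iterate_succ, Function.iterate_zero, Function.comp_apply, id]
          rw [h1, h2]

/-- the image of an imaginary quadratic field satisfies the hypotheses -/
lemma quad (F : Type) [Field F] [Algebra ℚ F] (φ : F →+* ℂ) (hF : Module.finrank ℚ F = 2)
    (hθ : ∃ θ, (φ θ).im ≠ 0) :
    (∀ x ∈ φ.fieldRange, starRingEnd ℂ x ∈ φ.fieldRange) ∧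
      (∀ x ∈ φ.fieldRange, x.im = 0 → ∃ q : ℚ, x = q) := by
  obtain ⟨θ, hθ⟩ := hθ
  have hφq : ∀ q : ℚ, φ (algebraMap ℚ F q) = (q : ℂ) := by
    intro q
    have : (φ.comp (algebraMap ℚ F)) q = (algebraMap ℚ ℂ) q := by
      rw [RingHom.ext_rat (φ.comp (algebraMap ℚ F)) (algebraMap ℚ ℂ)]
    simpa using this
  have hli : LinearIndependent ℚ ![(1 : F), θ] := by
    rw [LinearIndependent.pair_iff]
    intro a b hab
    have h1 := congrArg φ hab
    rw [map_add, Algebra.smul_def, Algebra.smul_def, map_mul, map_mul, hφq, hφq, map_one,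
      map_zero] at h1
    have h2 := congrArg Complex.im h1
    simp at h2
    have hb : b = 0 := by
      rcases h2 with h | h
      · exact_mod_cast h
      · exact absurd h hθ
    rw [hb] at h1
    simp at h1
    exact ⟨by exact_mod_cast h1, hb⟩
  have hspan := hli.span_eq_top_of_card_eq_finrank (by rw [hF]; rfl)
  have hrep : ∀ x : F, ∃ a b : ℚ, φ x = a + b * φ θ := by
    intro x
    have hx : x ∈ Submodule.span ℚ (Set.range ![(1 : F), θ]) := by
      rw [hspan]; trivial
    rw [Matrix.range_cons, Matrix.range_cons, Matrix.range_empty, Set.union_empty,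
      Set.singleton_union, Submodule.mem_span_pair] at hx
    obtain ⟨a, b, hab⟩ := hx
    refine ⟨a, b, ?_⟩
    rw [← hab, map_add, Algebra.smul_def, Algebra.smul_def, map_mul, map_mul, hφq, hφq,
      map_one, mul_one]
  constructor
  · intro x hx
    obtain ⟨y, rfl⟩ := RingHom.mem_fieldRange.1 hx
    obtain ⟨a, b, hab⟩ := hrep y
    obtain ⟨c, e, hce⟩ := hrep (θ * θ)
    rw [map_mul] at hce
    have him := congrArg Complex.im hce
    simp only [Complex.mul_im, Complex.add_im, Complex.ratCast_im, Complex.ratCast_re,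
      zero_add, zero_mul, add_zero] at him
    have he : (e : ℝ) = 2 * (φ θ).re := by
      have : (φ θ).im * ((e : ℝ) - 2 * (φ θ).re) = 0 := by linarith
      rcases mul_eq_zero.1 this with h | h
      · exact absurd h hθ
      · linarith
    have hconj : starRingEnd ℂ (φ θ) = (e : ℂ) - φ θ := by
      apply Complex.ext
      · simp [he]
        ring
      · simp
    rw [RingHom.mem_fieldRange]
    refine ⟨algebraMap ℚ F (a + b * e) - algebraMap ℚ F b * θ, ?_⟩
    rw [hab, map_sub, map_mul, hφq, hφq, map_add, map_mul, hconj]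
    have h1 : starRingEnd ℂ (a : ℂ) = a := by
      simp
    have h2 : starRingEnd ℂ (b : ℂ) = b := by
      simp
    rw [h1, h2]
    push_cast
    ring
  · intro x hx him
    obtain ⟨y, rfl⟩ := RingHom.mem_fieldRange.1 hx
    obtain ⟨a, b, hab⟩ := hrep y
    rw [hab] at him
    simp at him
    rcases him with h | h
    · refine ⟨a, ?_⟩
      rw [hab, h]
      simp
    · exact absurd h hθ

/-- Let `K` be a subfield of `ℂ` which is stable under complex conjugation and whose real
elements are rational (so `K` is `ℚ` or an imaginary quadratic field). A polynomial of degree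
`d ≥ 2` over `K` with everywhere potentially good reduction has at most `max 2880 d`
preperiodic points in `K`; for `d ≥ 2880` the value `d` is attained. -/
theorem result :
    (∀ K : Subfield ℂ, (∀ x ∈ K, starRingEnd ℂ x ∈ K) →
      (∀ x ∈ K, x.im = 0 → ∃ q : ℚ, x = q) →
      (∀ (d : ℕ) (f : Polynomial K), 2 ≤ d → f.natDegree = d → PotGood f →
        {x : K | IsPreper f x}.Finite ∧ {x : K | IsPreper f x}.ncard ≤ max 2880 d) ∧
      (∀ d : ℕ, 2880 ≤ d → ∃ f : Polynomial K, f.natDegree = d ∧ PotGood f ∧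
        {x : K | IsPreper f x}.ncard = d)) ∧
    (∀ (F : Type) [Field F] [Algebra ℚ F] (φ : F →+* ℂ), Module.finrank ℚ F = 2 →
      (∃ θ, (φ θ).im ≠ 0) →
      (∀ x ∈ φ.fieldRange, starRingEnd ℂ x ∈ φ.fieldRange) ∧
        (∀ x ∈ φ.fieldRange, x.im = 0 → ∃ q : ℚ, x = q)) :=
  ⟨fun K hconj hreal => ⟨fun d f hd hf hg => upper K hconj hreal f d hd hf hg,
    fun d hd => exists_sharp K hconj hreal d hd⟩,
    fun F _ _ φ hF hθ => quad F φ hF hθ⟩

end Pool.Agent.Results.MP_90787a_nt.ImagQuadraticPotGood
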