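import Mathlib
import Pool.Agent.H892.PGK.Count

/-!
# MP_90787a_nt: maps with everywhere potentially good reduction over number fields with units `±1`

Let `K` be a number field whose only units are `±1` (`ℚ` and the imaginary quadratic fields other
than `ℚ(i)`, `ℚ(√-3)`) and `f = [F : G]` a self-map of the projective line of degree `d ≥ 2` over
`K` with potentially good reduction at every finite place (`Pool.Agent.H892.PGK.PotGood`).  Then `f`
has at most `d ^ 96 + d ^ 84 + 1` preperiodic points in `ℙ¹(K)`, and every periodic point of `f` in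
`ℙ¹(K)` has exact period `1, 2, 3, 4` or `6`.

Proof.  In the good coordinates at `v` the chordal distance does not increase under `f`.  The
Plücker relation `c₁ - c₂ + c₃ = 0` between four points of `ℙ¹(K)` has `v`-adic absolute values
given by products of these distances, up to a common factor, and elements of `K` with the same
absolute values at all finite places agree up to sign.  Applied to four points of a cycle this
excludes the periods `8, 9, 12` and all primes `≥ 5`; applied to the points number `0, 1, 2, 4, 8`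
of a tail ending in a fixed point of `f ^ 12` it bounds the length of the tail by `7`.
-/

set_option autoImplicit false

open MvPolynomial Pool.Agent.H892.PGK
open Pool.Agent.H892.PGR (br Phi)
open NumberField IsDedekindDomain

namespace Pool.Agent.Results.MP_90787a_nt.PotentiallyGoodReduction

section units

variable (K : Type) [Field K] [NumberField K]

lemma units (hu : ∀ u : (𝓞 K)ˣ, u = 1 ∨ u = -1) (a b : K) (ha : a ≠ 0) (hb : b ≠ 0)
    (h : ∀ v : HeightOneSpectrum (𝓞 K), NumberField.HeightOneSpectrum.adicAbv K v a =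
      NumberField.HeightOneSpectrum.adicAbv K v b) : a = b ∨ a = -b := by
  have key : ∀ a b : K, a ≠ 0 → b ≠ 0 → (∀ v : HeightOneSpectrum (𝓞 K),
      NumberField.HeightOneSpectrum.adicAbv K v a = NumberField.HeightOneSpectrum.adicAbv K v b) →
      ∃ r : 𝓞 K, algebraMap (𝓞 K) K r = a / b := by
    intro a b ha hb h
    have h1 : ∀ v : HeightOneSpectrum (𝓞 K), v.valuation K (a / b) ≤ 1 := by
      intro v
      have h2 : NumberField.HeightOneSpectrum.adicAbv K v (a / b) = 1 := by
        rw [map_div₀, h v]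
        exact div_self ((NumberField.HeightOneSpectrum.adicAbv K v).ne_zero hb)
      rw [NumberField.HeightOneSpectrum.adicAbv_def] at h2
      have h3 : WithZeroMulInt.toNNReal (HeightOneSpectrum.absNorm_ne_zero v)
          (v.valuation K (a / b)) = 1 := by exact_mod_cast h2
      exact ((WithZeroMulInt.toNNReal_le_one_iff (HeightOneSpectrum.one_lt_absNorm_nnreal v)).mp
        h3.le)
    have := HeightOneSpectrum.mem_integers_of_valuation_le_one K (a / b) h1
    exact this
  obtain ⟨r, hr⟩ := key a b ha hb h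
  obtain ⟨s, hs⟩ := key b a hb ha (fun v => (h v).symm)
  have hrs : r * s = 1 := by
    apply FaithfulSMul.algebraMap_injective (𝓞 K) K
    rw [map_mul, hr, hs, map_one]
    field_simp
  rcases hu (Units.mk r s hrs (by rw [mul_comm]; exact hrs)) with h1 | h1
  · left
    have h2 : r = 1 := congrArg Units.val h1
    rw [h2, map_one] at hr
    field_simp at hr
    exact hr.symm
  · right
    have h2 : r = -1 := congrArg Units.val h1
    rw [h2, map_neg, map_one] at hr
    field_simp at hr
    linear_combination -hr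

lemma two_place (hu : ∀ u : (𝓞 K)ˣ, u = 1 ∨ u = -1) :
    ∃ v : HeightOneSpectrum (𝓞 K), NumberField.HeightOneSpectrum.adicAbv K v (2 : K) < 1 := by
  have h2 : ¬ IsUnit (2 : 𝓞 K) := by
    rintro ⟨u, hu2⟩
    rcases hu u with h | h
    · rw [h, Units.val_one] at hu2
      have : (1 : 𝓞 K) = 0 := by linear_combination -hu2
      exact one_ne_zero this
    · rw [h, Units.val_neg, Units.val_one] at hu2
      have h3 : (3 : 𝓞 K) = 0 := by linear_combination -hu2
      exact (OfNat.ofNat_ne_zero 3) h3
  obtain ⟨P, hP, hmem⟩ := exists_max_ideal_of_mem_nonunits h2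
  have hne : P ≠ ⊥ := by
    rintro rfl
    rw [Ideal.mem_bot] at hmem
    exact two_ne_zero hmem
  let v : HeightOneSpectrum (𝓞 K) := ⟨P, hP.isPrime, hne⟩
  refine ⟨v, ?_⟩
  have h5 := (HeightOneSpectrum.adicAbv_coe_lt_one_iff (K := K) (v := v)
    (HeightOneSpectrum.one_lt_absNorm_nnreal v) (2 : 𝓞 K)).mpr hmem
  have h6 : algebraMap (𝓞 K) K (2 : 𝓞 K) = 2 := map_ofNat _ 2
  rw [h6] at h5
  exact h5

end units

variable {K : Type} [Field K]

lemma fX_iter {F G : MvPolynomial (Fin 2) K} {d : ℕ} (hF : F.IsHomogeneous d)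
    (hG : G.IsHomogeneous d) (h0 : ∀ v : Fin 2 → K, v ≠ 0 → Phi F G v ≠ 0) (v : Fin 2 → K)
    (hv : v ≠ 0) (k : ℕ) :
    ∃ hk : (Phi F G)^[k] v ≠ 0, (fX F G h0)^[k] (Projectivization.mk K v hv) =
      Projectivization.mk K ((Phi F G)^[k] v) hk := by
  induction k with
  | zero => exact ⟨hv, rfl⟩
  | succ k ih =>
    obtain ⟨hk, ih⟩ := ih
    have e : (Phi F G)^[k + 1] v = Phi F G ((Phi F G)^[k] v) :=
      Function.iterate_succ_apply' _ _ _
    refine ⟨by rw [e]; exact h0 _ hk, ?_⟩
    rw [Function.iterate_succ_apply', ih, fX_mk hF hG h0 _ hk]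
    simp only [e]

theorem result [NumberField K] (hu : ∀ u : (𝓞 K)ˣ, u = 1 ∨ u = -1)
    (d : ℕ) (hd : 2 ≤ d) (F G : MvPolynomial (Fin 2) K)
    (hF : F.IsHomogeneous d) (hG : G.IsHomogeneous d)
    (h : ∀ x : Fin 2 → AlgebraicClosure K, x ≠ 0 →
      ¬ (MvPolynomial.aeval x F = 0 ∧ MvPolynomial.aeval x G = 0))
    (hp : ∀ v : HeightOneSpectrum (𝓞 K),
      PotGood (NumberField.HeightOneSpectrum.adicAbv K v) F G d) :
    (∀ S : Finset (Projectivization K (Fin 2 → K)),
      (∀ P ∈ S, ∃ v : Fin 2 → K, ∃ hv : v ≠ 0, Projectivization.mk K v hv = P ∧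
        ∃ m n : ℕ, m < n ∧ ∃ c : K, c ≠ 0 ∧
          (fun w : Fin 2 → K => ![MvPolynomial.eval w F, MvPolynomial.eval w G])^[n] v =
            c • (fun w : Fin 2 → K => ![MvPolynomial.eval w F, MvPolynomial.eval w G])^[m] v) →
      S.card ≤ d ^ 96 + d ^ 84 + 1) ∧
    (∀ v : Fin 2 → K, v ≠ 0 → ∀ n : ℕ, 0 < n →
      (∃ c : K, c ≠ 0 ∧
        (fun w : Fin 2 → K => ![MvPolynomial.eval w F, MvPolynomial.eval w G])^[n] v = c • v) →
      (∀ m : ℕ, 0 < m → m < n → ¬ ∃ c : K, c ≠ 0 ∧
        (fun w : Fin 2 → K => ![MvPolynomial.eval w F, MvPolynomial.eval w G])^[m] v = c • v) →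
      n = 1 ∨ n = 2 ∨ n = 3 ∨ n = 4 ∨ n = 6) := by
  have h0 : ∀ v : Fin 2 → K, v ≠ 0 → Phi F G v ≠ 0 := by
    intro v hv hz
    apply nz_rat h v hv
    rw [aev, aev]
    exact ⟨congrFun hz 0, congrFun hz 1⟩
  obtain ⟨v2, hv2⟩ := two_place K hu
  obtain ⟨S, hS⟩ := exists_sys (fun v => NumberField.HeightOneSpectrum.adicAbv K v)
    (units K hu) v2 hv2 two_ne_zero h0 hp
  constructor
  · intro T hT
    apply count hd hF hG h (m := 96) (n := 84) (by norm_num)
    intro x hx
    obtain ⟨v, hv, hvx, m, n, hmn, c, hc, hcv⟩ := hT x hx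
    have hcv' : (Phi F G)^[n] v = c • (Phi F G)^[m] v := hcv
    obtain ⟨hn', en⟩ := fX_iter hF hG h0 v hv n
    obtain ⟨hm', em⟩ := fX_iter hF hG h0 v hv m
    have hpre : (fX F G h0)^[m] x = (fX F G h0)^[n] x := by
      rw [← hvx, em, en, Projectivization.mk_eq_mk_iff']
      exact ⟨c⁻¹, by rw [hcv', smul_smul, inv_mul_cancel₀ hc, one_smul]⟩
    have h96 := preper hS hmn hpre
    obtain ⟨h1, e1⟩ := fX_iter hF hG h0 x.rep x.rep_nonzero 96
    obtain ⟨h2, e2⟩ := fX_iter hF hG h0 x.rep x.rep_nonzero 84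
    rw [Projectivization.mk_rep] at e1 e2
    rw [br_zero_iff h1 h2, ← e1, ← e2]
    exact h96
  · intro v hv n hn ⟨c, hc, hcv⟩ hmin
    have hcv' : (Phi F G)^[n] v = c • v := hcv
    set x := Projectivization.mk K v hv with hx
    have hper : Function.IsPeriodicPt (fX F G h0) n x := by
      obtain ⟨hn', en⟩ := fX_iter hF hG h0 v hv n
      unfold Function.IsPeriodicPt Function.IsFixedPt
      rw [hx, en, Projectivization.mk_eq_mk_iff']
      exact ⟨c, hcv'.symm⟩
    have hpos := hper.minimalPeriod_pos hn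
    have hle := hper.minimalPeriod_le hn
    have hmp : Function.minimalPeriod (fX F G h0) x = n := by
      by_contra hne
      have hlt : Function.minimalPeriod (fX F G h0) x < n := lt_of_le_of_ne hle hne
      apply hmin _ hpos hlt
      have h1 := Function.isPeriodicPt_minimalPeriod (fX F G h0) x
      unfold Function.IsPeriodicPt Function.IsFixedPt at h1
      set m := Function.minimalPeriod (fX F G h0) x
      obtain ⟨hm', em⟩ := fX_iter hF hG h0 v hv m
      rw [hx, em, Projectivization.mk_eq_mk_iff'] at h1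
      obtain ⟨a, ha⟩ := h1
      refine ⟨a, ?_, ha.symm⟩
      rintro rfl
      rw [zero_smul] at ha
      exact hm' ha.symm
    exact cycles hS hmp hn

end Pool.Agent.Results.MP_90787a_nt.PotentiallyGoodReduction
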